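import Pool.Agent.W282.EZ.Stm

/-! Project EZ (helper282), part DEGM: total degrees of the multiplication polynomials. -/

set_option autoImplicit false

open MvPolynomial

namespace Pool.Agent.W101.EZ

open Pool.Agent.W282.EZ

/-- the total degree is at most `i` -/
def Dg {N : ℕ} (a : MvPolynomial (Fin N) ℂ) (i : ℕ) : Prop := a.totalDegree ≤ i

section
variable {N : ℕ} {a b : MvPolynomial (Fin N) ℂ} {i j k : ℕ}

lemma Dg.mul (ha : Dg a i) (hb : Dg b j) : Dg (a * b) (i + j) :=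
  (totalDegree_mul a b).trans (Nat.add_le_add ha hb)

lemma Dg.add (ha : Dg a i) (hb : Dg b j) (hi : i ≤ k) (hj : j ≤ k) : Dg (a + b) k :=
  (totalDegree_add a b).trans (max_le (le_trans ha hi) (le_trans hb hj))

lemma Dg.sub (ha : Dg a i) (hb : Dg b j) (hi : i ≤ k) (hj : j ≤ k) : Dg (a - b) k :=
  (totalDegree_sub a b).trans (max_le (le_trans ha hi) (le_trans hb hj))

lemma Dg.sq (ha : Dg a i) : Dg (a ^ 2) (i + i) := by
  rw [_root_.sq]
  exact ha.mul ha

lemma Dg.mono (ha : Dg a i) (h : i ≤ j) : Dg a j := le_trans ha h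

lemma Dg.two : Dg (2 : MvPolynomial (Fin N) ℂ) 0 := by
  have e : (2 : MvPolynomial (Fin N) ℂ) = C 2 := (map_ofNat C 2).symm
  rw [Dg, e, totalDegree_C]

lemma Dg.four : Dg (4 : MvPolynomial (Fin N) ℂ) 0 := by
  have e : (4 : MvPolynomial (Fin N) ℂ) = C 4 := (map_ofNat C 4).symm
  rw [Dg, e, totalDegree_C]

lemma Dg.one : Dg (1 : MvPolynomial (Fin N) ℂ) 0 := by
  rw [Dg, totalDegree_one]

end

section
variable {N D z z' : ℕ} {A B x X Z X' Z' : MvPolynomial (Fin N) ℂ}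

lemma c2_deg (hA : Dg A D) (hB : Dg B D) (hX : Dg X (z + D)) (hZ : Dg Z z) :
    Dg (c2 A B X Z X Z) (4 * z + 4 * D) := by
  unfold c2
  refine Dg.sub (i := 4 * z + 4 * D) (j := 4 * z + 4 * D) ?_ ?_ le_rfl le_rfl
  · refine (Dg.sq (i := 2 * z + 2 * D) ?_).mono (by omega)
    exact (hX.mul hX).sub (hA.mul (hZ.mul hZ)) (by omega) (by omega)
  · refine (((Dg.four.mul hB).mul (hZ.mul hZ)).mul
      ((hX.mul hZ).add (k := 2 * z + D) (hX.mul hZ) (by omega) (by omega))).mono (by omega)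

lemma c1_deg (hA : Dg A D) (hB : Dg B D) (hX : Dg X (z + D)) (hZ : Dg Z z)
    (hX' : Dg X' (z' + D)) (hZ' : Dg Z' z') :
    Dg (c1 A B X Z X' Z') (2 * z + 2 * z' + 3 * D) := by
  unfold c1
  refine Dg.add (i := 2 * z + 2 * z' + 3 * D) (j := 2 * z + 2 * z' + 3 * D) ?_ ?_ le_rfl le_rfl
  · refine ((Dg.two.mul ((hX.mul hZ').add (k := z + z' + D) (hX'.mul hZ) (by omega)
      (by omega))).mul ((hX.mul hX').add (k := z + z' + 2 * D) (hA.mul (hZ.mul hZ')) (by omega)
      (by omega))).mono (by omega)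
  · exact ((Dg.four.mul hB).mul (hZ.mul hZ').sq).mono (by omega)

lemma c0_deg (hX : Dg X (z + D)) (hZ : Dg Z z) (hX' : Dg X' (z' + D)) (hZ' : Dg Z' z') :
    Dg (c0 X Z X' Z') (2 * z + 2 * z' + 2 * D) := by
  unfold c0
  exact (Dg.sq ((hX.mul hZ').sub (k := z + z' + D) (hX'.mul hZ) (by omega) (by omega))).mono
    (by omega)

lemma main (hA : Dg A D) (hB : Dg B D) (hx : Dg x D) (m : ℕ) (hm : 1 ≤ m) :
    ∃ z, z + D = D * m ^ 2 ∧ Dg (mulXZ A B x m).1 (z + D) ∧ Dg (mulXZ A B x m).2 z := by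
  induction m using Nat.strong_induction_on with
  | _ m ih =>
    rcases Nat.lt_or_ge m 2 with h | h
    · have h1 : m = 1 := by omega
      subst h1
      rw [mulXZ_one]
      exact ⟨0, by ring, by simpa using hx, Dg.one⟩
    · rcases Nat.even_or_odd' m with ⟨k, rfl | rfl⟩
      · rw [mulXZ_even _ _ _ (by omega)]
        obtain ⟨z, hz, hX, hZ⟩ := ih k (by omega) (by omega)
        refine ⟨4 * z + 3 * D, ?_, ?_, ?_⟩
        · calc 4 * z + 3 * D + D = 4 * (z + D) := by ring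
            _ = D * (2 * k) ^ 2 := by rw [hz]; ring
        · exact (c2_deg hA hB hX hZ).mono (by omega)
        · exact (c1_deg hA hB hX hZ hX hZ).mono (by omega)
      · rw [mulXZ_odd _ _ _ (by omega)]
        obtain ⟨z, hz, hX, hZ⟩ := ih k (by omega) (by omega)
        obtain ⟨z', hz', hX', hZ'⟩ := ih (k + 1) (by omega) (by omega)
        have h0 := c0_deg hX hZ hX' hZ'
        refine ⟨2 * z + 2 * z' + 2 * D, ?_, ?_, h0⟩
        · have e : 2 * z + 2 * z' + 2 * D + D + D = D * (2 * k + 1) ^ 2 + D := by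
            calc 2 * z + 2 * z' + 2 * D + D + D = 2 * (z + D) + 2 * (z' + D) := by ring
              _ = D * (2 * k + 1) ^ 2 + D := by rw [hz, hz']; ring
          omega
        · exact (c1_deg hA hB hX hZ hX' hZ').sub (hx.mul h0) (by omega) (by omega)

end

theorem degm : S_DEGM := by
  intro N D A B x hD hA hB hx m
  rcases Nat.eq_zero_or_pos m with rfl | hm
  · rw [mulXZ_zero]
    simp
  · obtain ⟨z, hz, h1, h2⟩ := main hA hB hx m hm
    rw [← hz]
    exact ⟨h1, le_trans h2 (Nat.le_add_right _ _)⟩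

end Pool.Agent.W101.EZ
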